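import Pool.Agent.Lib.MP_6f2296_co.RL.MnB

set_option autoImplicit false

namespace Pool.Agent.Results.MP_6f2296_co.FieldStructure

open Pool.Agent.RL

/-- Let `v 1, ..., v d` be complex numbers which are linearly independent over `ℚ` and let `A` be a subset of the cube
`{z₀ + ∑ a i v i | |a i| ≤ N}` with `n = |A| ≥ κ N ^ d` points, `n ≥ 2`. If `A` has at most `c n` distinct distances, `c`
depending on `d` and `κ` only, then the rational span of the `v i` is `lam * K` for a complex number `lam ≠ 0` and a number
field `K ⊆ ℂ` of degree `d` which is closed under complex conjugation and not contained in `ℝ`. -/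
theorem result (d : ℕ) (κ : ℝ) (hκ : 0 < κ) :
    ∃ c : ℝ, 0 < c ∧ ∀ v : Fin d → ℂ, LinearIndependent ℚ v → ∀ (z₀ : ℂ) (N : ℕ) (A : Finset ℂ),
      InCube v z₀ N A → κ * (N : ℝ) ^ d ≤ A.card → 2 ≤ A.card →
      (numDist A : ℝ) ≤ c * A.card → FieldStr v :=
  (all_parts d κ hκ).2.2

end Pool.Agent.Results.MP_6f2296_co.FieldStructure
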