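import Pool.Agent.Lib.MP_6f2296_co.SD.Fin2

set_option autoImplicit false

open scoped Pointwise

namespace Pool.Agent.Results.MP_6f2296_co.LargeEnergy

open Pool.Agent.RL Pool.Agent.SD

/-- Sets of large additive energy (or small doubling) with few distances: a positive proportion of the points lies on
parallel rich lines; for small doubling almost all points lie on rich lines. -/
theorem result (K : ℝ) :
    (∃ c C : ℝ, 0 < c ∧ 0 < C ∧ ∀ A : Finset ℂ, 3 ≤ A.card →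
      ((A.card : ℝ) ^ 3 ≤ K * (Finset.addEnergy A A : ℕ) ∨ ((A + A).card : ℝ) ≤ K * A.card) →
      (numDist A : ℝ) ≤ c * A.card / (1 + Real.log (Real.log A.card)) →
      ∃ w : ℂ, w ≠ 0 ∧ c * (A.card : ℝ) ≤ ((richPts A w ((A.card : ℝ) ^ (1 / 2 : ℝ) *
        Real.exp (-(C * (1 + Real.log (Real.log A.card)) ^ 2)))).card : ℝ)) ∧
    (∀ K' ε : ℝ, ε < 1 / 2 → ∃ c : ℝ, 0 < c ∧ ∀ A : Finset ℂ, 2 ≤ A.card →
      ((A.card : ℝ) ^ 3 ≤ K * (Finset.addEnergy A A : ℕ) ∨ ((A + A).card : ℝ) ≤ K * A.card) →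
      (numDist A : ℝ) ≤ K' * A.card / Real.sqrt (Real.log A.card) →
      ∃ w : ℂ, w ≠ 0 ∧ c * (A.card : ℝ) ≤ ((richPts A w (c * (A.card : ℝ) ^ ε)).card : ℝ)) ∧
    ∀ η : ℝ, 0 < η →
      (∃ c C : ℝ, 0 < c ∧ 0 < C ∧ ∀ A : Finset ℂ, 3 ≤ A.card → ((A + A).card : ℝ) ≤ K * A.card →
        (numDist A : ℝ) ≤ c * A.card / (1 + Real.log (Real.log A.card)) →
        (1 - η) * (A.card : ℝ) ≤ ((richAny A ((A.card : ℝ) ^ (1 / 2 : ℝ) *
          Real.exp (-(C * (1 + Real.log (Real.log A.card)) ^ 2)))).card : ℝ)) ∧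
      ∀ K' ε : ℝ, ε < 1 / 2 → ∃ c : ℝ, 0 < c ∧ ∀ A : Finset ℂ, 2 ≤ A.card →
        ((A + A).card : ℝ) ≤ K * A.card →
        (numDist A : ℝ) ≤ K' * A.card / Real.sqrt (Real.log A.card) →
        (1 - η) * (A.card : ℝ) ≤ ((richAny A (c * (A.card : ℝ) ^ ε)).card : ℝ) :=
  ⟨LEfin K, LEfew K, fun η hη => ⟨AARfin K η hη, fun K' ε hε => AARfew K η K' ε hη hε⟩⟩

end Pool.Agent.Results.MP_6f2296_co.LargeEnergy
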