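import Pool.Agent.Lib.MP_6f2296_co.SD.Fin2

set_option autoImplicit false

open scoped Pointwise

namespace Pool.Agent.Results.MP_6f2296_co.LatticeStructure

open Pool.Agent.RL Pool.Agent.SD

/-- Sets of large additive energy (or small doubling) with few distances have the structure of a lattice of a number field
which is closed under complex conjugation and not real, up to powers of `log n`. -/
theorem result (K : ℝ) : ∃ (D F : ℕ) (c : ℝ), 0 < c ∧
    (∀ A : Finset ℂ, 3 ≤ A.card →
      ((A.card : ℝ) ^ 3 ≤ K * (Finset.addEnergy A A : ℕ) ∨ ((A + A).card : ℝ) ≤ K * A.card) →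
      (numDist A : ℝ) ≤ c * A.card / (1 + Real.log (Real.log A.card)) → LatticeLike D F c A) ∧
    ∀ K' : ℝ, ∃ n₀ : ℕ, ∀ A : Finset ℂ, n₀ ≤ A.card →
      ((A.card : ℝ) ^ 3 ≤ K * (Finset.addEnergy A A : ℕ) ∨ ((A + A).card : ℝ) ≤ K * A.card) →
      (numDist A : ℝ) ≤ K' * A.card / Real.sqrt (Real.log A.card) → LatticeLike D F c A :=
  LSall K

end Pool.Agent.Results.MP_6f2296_co.LatticeStructure
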