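import Pool.Agent.Lib.MP_6f2296_co.RL.MnB

set_option autoImplicit false

namespace Pool.Agent.Results.MP_6f2296_co.RichLines

open Pool.Agent.RL

/-- Let `v 1, ..., v d` be complex numbers which are linearly independent over `ℚ` and let `A` be a subset of the cube
`{z₀ + ∑ a i v i | |a i| ≤ N}` with `n = |A| ≥ κ N ^ d` points and `D` distinct distances. Then for every `i` some line
parallel to `v i` contains at least `n ^ (1/2 - C (D/n) (1 + log log n)²)` points of `A`, with `C` depending on `d` and `κ`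
only. In particular, if `D ≤ K n / √(log n)` then for every `ε < 1/2` it contains at least `c n ^ ε` points of `A`, with
`c` depending on `d`, `κ`, `ε`, `K` only. -/
theorem result (d : ℕ) (κ : ℝ) (hκ : 0 < κ) :
    (∃ C : ℝ, 0 < C ∧ ∀ v : Fin d → ℂ, LinearIndependent ℚ v → ∀ (z₀ : ℂ) (N : ℕ) (A : Finset ℂ),
      InCube v z₀ N A → κ * (N : ℝ) ^ d ≤ A.card → 3 ≤ A.card → ∀ i : Fin d, ∃ p : ℂ,
        (A.card : ℝ) ^ (1 / 2 - C * ((numDist A : ℝ) / A.card) *
          (1 + Real.log (Real.log A.card)) ^ 2) ≤ (onLine A p (v i)).card) ∧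
    (∀ ε K : ℝ, ε < 1 / 2 → ∃ c : ℝ, 0 < c ∧ ∀ v : Fin d → ℂ, LinearIndependent ℚ v →
      ∀ (z₀ : ℂ) (N : ℕ) (A : Finset ℂ), InCube v z₀ N A → κ * (N : ℝ) ^ d ≤ A.card → 2 ≤ A.card →
      (numDist A : ℝ) ≤ K * A.card / Real.sqrt (Real.log A.card) → ∀ i : Fin d, ∃ p : ℂ,
        c * (A.card : ℝ) ^ ε ≤ (onLine A p (v i)).card) :=
  ⟨(all_parts d κ hκ).1, (all_parts d κ hκ).2.1⟩

end Pool.Agent.Results.MP_6f2296_co.RichLines
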